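import Mathlib

set_option autoImplicit false

open TensorProduct Polynomial

namespace Pool.Agent.MP_36a0ac_al.H88

/-- A derivation of a field `E` with constants `k` has no invariant ideals after base change. -/
theorem simple_baseChange {k E l : Type} [Field k] [Field E] [Field l] [Algebra k E] [Algebra k l]
    (D : E →ₗ[k] E) (hD : ∀ a b, D (a * b) = a * D b + D a * b)
    (hc : ∀ a, D a = 0 → a ∈ Set.range (algebraMap k E))
    (J : Ideal (l ⊗[k] E)) (hJ : ∀ v ∈ J, D.baseChange l v ∈ J) : J = ⊥ ∨ J = ⊤ := by
  classical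
  by_cases hbot : J = ⊥
  · exact Or.inl hbot
  right
  let b := Module.Basis.ofVectorSpace k l
  let e := TensorProduct.equivFinsuppOfBasisLeft (N := E) b
  have he_mul : ∀ (g : E) (v : l ⊗[k] E) i, e ((1 ⊗ₜ[k] g) * v) i = g * e v i := by
    intro g v i
    induction v using TensorProduct.induction_on with
    | zero => simp
    | tmul x y =>
      simp only [e, Algebra.TensorProduct.tmul_mul_tmul, one_mul,
        TensorProduct.equivFinsuppOfBasisLeft_apply_tmul_apply, mul_smul_comm]
    | add x y hx hy => simp only [mul_add, map_add, Finsupp.add_apply, hx, hy]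
  have he_D : ∀ (v : l ⊗[k] E) i, e (D.baseChange l v) i = D (e v i) := by
    intro v i
    induction v using TensorProduct.induction_on with
    | zero => simp
    | tmul x y =>
      simp only [e, LinearMap.baseChange_tmul,
        TensorProduct.equivFinsuppOfBasisLeft_apply_tmul_apply, map_smul]
    | add x y hx hy => simp only [map_add, Finsupp.add_apply, hx, hy]
  have hD1 : D 1 = 0 := by
    have := hD 1 1
    simp only [mul_one, one_mul] at this
    exact left_eq_add.mp this
  have hex : ∃ n, ∃ v ∈ J, v ≠ 0 ∧ (e v).support.card = n := by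
    obtain ⟨v, hv, hv0⟩ := Submodule.exists_mem_ne_zero_of_ne_bot hbot
    exact ⟨_, v, hv, hv0, rfl⟩
  obtain ⟨v, hvJ, hv0, hvn⟩ := Nat.find_spec hex
  have hmin : ∀ w ∈ J, w ≠ 0 → (e v).support.card ≤ (e w).support.card := by
    intro w hw hw0
    rw [hvn]
    exact Nat.find_min' hex ⟨w, hw, hw0, rfl⟩
  have hev : e v ≠ 0 := by simpa using hv0
  obtain ⟨i0, hi0⟩ := Finsupp.support_nonempty_iff.mpr hev
  have hg : e v i0 ≠ 0 := Finsupp.mem_support_iff.mp hi0
  set v' : l ⊗[k] E := (1 ⊗ₜ[k] (e v i0)⁻¹) * v with hv'
  have hv'J : v' ∈ J := J.mul_mem_left _ hvJ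
  have hv'i0 : e v' i0 = 1 := by rw [hv', he_mul, inv_mul_cancel₀ hg]
  have hDv' : D.baseChange l v' = 0 := by
    by_contra hne
    have h1 := hmin _ (hJ _ hv'J) hne
    have h2 : (e (D.baseChange l v')).support ⊆ (e v).support.erase i0 := by
      intro i hi
      rw [Finsupp.mem_support_iff, he_D] at hi
      rw [Finset.mem_erase, Finsupp.mem_support_iff]
      constructor
      · rintro rfl
        rw [hv'i0, hD1] at hi
        exact hi rfl
      · intro h0
        rw [hv', he_mul, h0, mul_zero, map_zero] at hi
        exact hi rfl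
    have h3 := Finset.card_le_card h2
    have h4 := Finset.card_erase_lt_of_mem hi0
    omega
  have hconst : ∀ i, e v' i ∈ Set.range (algebraMap k E) := by
    intro i
    apply hc
    rw [← he_D, hDv']
    simp
  have hrange : v' ∈ (algebraMap l (l ⊗[k] E)).range := by
    have : v' = (e v').sum fun i n => b i ⊗ₜ[k] n := by
      rw [← TensorProduct.equivFinsuppOfBasisLeft_symm_apply]
      exact (e.symm_apply_apply v').symm
    rw [this, Finsupp.sum]
    apply Subring.sum_mem
    intro i _
    obtain ⟨c, hc⟩ := hconst i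
    refine ⟨c • b i, ?_⟩
    rw [← hc, Algebra.TensorProduct.algebraMap_apply, Algebra.algebraMap_eq_smul_one c,
      TensorProduct.tmul_smul, TensorProduct.smul_tmul']
    simp
  obtain ⟨c, hc⟩ := hrange
  have hc0 : c ≠ 0 := by
    rintro rfl
    rw [map_zero] at hc
    rw [← hc] at hv'i0
    simp at hv'i0
  exact J.eq_top_of_isUnit_mem hv'J (hc ▸ (IsUnit.mk0 c hc0).map _)

/-- The operator `v ↦ D (f v)` and its rank one perturbation have no common eigenvalue. -/
theorem no_common_eigen {l O : Type} [Field l] [CommRing O] [Algebra l O] [FiniteDimensional l O]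
    (D : O →ₗ[l] O) (hD : ∀ a b, D (a * b) = a * D b + D a * b)
    (hs : ∀ J : Ideal O, (∀ v ∈ J, D v ∈ J) → J = ⊥ ∨ J = ⊤)
    (ε : O →ₐ[l] l) (s : O) (hs0 : s ≠ 0) (hsv : ∀ v, s * v = ε v • s)
    (f g : O) (hfg : f * g = 1) (lam : l)
    (v0 : O) (hv0 : v0 ≠ 0) (h0 : D (f * v0) = lam • v0)
    (v1 : O) (hv1 : v1 ≠ 0) (h1 : D (f * v1) + s * (f * v1) = lam • v1) : False := by
  by_cases hε : ε (f * v1) = 0
  · rw [hsv, hε, zero_smul, add_zero] at h1
    have hJ : ∀ v ∈ Ideal.span {v1}, D v ∈ Ideal.span {v1} := by
      intro v hv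
      obtain ⟨a, rfl⟩ := Ideal.mem_span_singleton'.mp hv
      have e1 : a * v1 = (a * g) * (f * v1) := by
        rw [mul_assoc, ← mul_assoc g, mul_comm g f, hfg, one_mul]
      rw [e1, hD, h1]
      apply Ideal.add_mem
      · apply Ideal.mul_mem_left
        rw [Algebra.smul_def]
        exact Ideal.mul_mem_left _ _ (Ideal.mem_span_singleton_self _)
      · exact Ideal.mul_mem_left _ _ (Ideal.mul_mem_left _ _ (Ideal.mem_span_singleton_self _))
    rcases hs _ hJ with h | h
    · exact hv1 (Ideal.span_singleton_eq_bot.mp h)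
    · have hu : IsUnit v1 := Ideal.span_singleton_eq_top.mp h
      have hf : IsUnit f := IsUnit.of_mul_eq_one g hfg
      exact ((hf.mul hu).map ε).ne_zero hε
  · let T : O →ₗ[l] O := D ∘ₗ LinearMap.mulLeft l f - lam • LinearMap.id
    have hT : ∀ v, T v = D (f * v) - lam • v := fun v => by simp [T]
    have hsU : s ∈ LinearMap.range T := by
      refine ⟨(-(ε (f * v1))⁻¹) • v1, ?_⟩
      rw [map_smul, hT, ← h1, hsv]
      simp only [sub_add_cancel_left, smul_neg, neg_smul, neg_neg, smul_smul, neg_mul,
        inv_mul_cancel₀ hε, one_smul]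
    have hUT : ∀ u ∈ LinearMap.range T, D (f * u) ∈ LinearMap.range T := by
      intro u hu
      have : D (f * u) = T u + lam • u := by rw [hT]; abel
      rw [this]
      exact Submodule.add_mem _ ⟨u, rfl⟩ (Submodule.smul_mem _ _ hu)
    let J : Ideal O :=
      { carrier := {v | ∀ a, a * v ∈ LinearMap.range T}
        add_mem' := fun {x y} hx hy a => by
          rw [mul_add]; exact Submodule.add_mem _ (hx a) (hy a)
        zero_mem' := fun a => by rw [mul_zero]; exact Submodule.zero_mem _
        smul_mem' := fun c x hx a => by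
          rw [smul_eq_mul, ← mul_assoc]; exact hx _ }
    have hJ : ∀ v ∈ J, D v ∈ J := by
      intro v hv a
      have e1 : a * D v = D (f * ((g * a) * v)) - D a * v := by
        rw [← mul_assoc, ← mul_assoc, hfg, one_mul, hD]; ring
      rw [e1]
      exact Submodule.sub_mem _ (hUT _ (hv _)) (hv _)
    have hsJ : s ∈ J := by
      intro a
      rw [mul_comm, hsv]
      exact Submodule.smul_mem _ _ hsU
    rcases hs J hJ with h | h
    · rw [h] at hsJ
      exact hs0 (by simpa using hsJ)
    · have hsurj : Function.Surjective T := by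
        intro a
        have h1J : (1 : O) ∈ J := by rw [h]; trivial
        simpa using h1J a
      have hinj : Function.Injective T := LinearMap.injective_iff_surjective.mpr hsurj
      apply hv0
      apply hinj
      rw [hT, h0, sub_self, map_zero]

/-- The determinant of a rank one perturbation is affine in the parameter. -/
theorem det_rank_one {S I : Type} [CommRing S] [Fintype I] [DecidableEq I]
    (P : Matrix I I S) (u w : I → S) :
    ∃ q : S, ∀ {S' : Type} [CommRing S'] (π : S →+* S') (c : S'),
      (P.map π - c • (Matrix.vecMulVec u w).map π).det = π P.det + c * π q := by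
  let N : Matrix (I ⊕ Unit) (I ⊕ Unit) S :=
    Matrix.fromBlocks P (Matrix.replicateCol Unit u) (Matrix.replicateRow Unit w) 0
  refine ⟨N.det, ?_⟩
  intro S' _ π c
  have h1 : (P.map π - c • (Matrix.vecMulVec u w).map π) =
      P.map π - (Matrix.replicateCol Unit (π ∘ u)) * (Matrix.replicateRow Unit (c • (π ∘ w))) := by
    ext i j
    simp [Matrix.vecMulVec_apply, Matrix.mul_apply]
  rw [h1, ← Matrix.det_fromBlocks_one₂₂]
  let N0 : Matrix (I ⊕ Unit) (I ⊕ Unit) S' :=
    Matrix.fromBlocks (P.map π) (Matrix.replicateCol Unit (π ∘ u)) 0 1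
  have h2 : Matrix.fromBlocks (P.map π) (Matrix.replicateCol Unit (π ∘ u))
      (Matrix.replicateRow Unit (c • (π ∘ w))) (1 : Matrix Unit Unit S') =
      N0.updateRow (Sum.inr ()) (N0 (Sum.inr ()) + c • (N.map π) (Sum.inr ())) := by
    ext i j
    rcases i with i | i <;> rcases j with j | j <;> simp [N0, N, Matrix.updateRow_apply]
  have h3 : N0.updateRow (Sum.inr ()) ((N.map π) (Sum.inr ())) = N.map π := by
    ext i j
    rcases i with i | i <;> rcases j with j | j <;> simp [N0, N, Matrix.updateRow_apply]
  rw [h2, Matrix.det_updateRow_add, Matrix.det_updateRow_smul, h3, Matrix.updateRow_eq_self]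
  have h4 : N0.det = π P.det := by
    rw [Matrix.det_fromBlocks_zero₂₁, Matrix.det_one, mul_one, RingHom.map_det]
    rfl
  have h5 : (N.map π).det = π N.det := by
    rw [RingHom.map_det]
    rfl
  rw [h4, h5]

/-- Irreducibility of a characteristic polynomial by specialising to a rank one pencil. -/
theorem irreducible_charpoly {B l I : Type} [CommRing B] [IsDomain B] [Field l] [IsAlgClosed l]
    [Fintype I] [DecidableEq I] [Nonempty I]
    (M : Matrix I I B) (φ : B →+* l[X]) (M0 : Matrix I I l) (u w : I → l)
    (hφ : ∀ c : l, M.map ((Polynomial.evalRingHom c).comp φ) = M0 + c • Matrix.vecMulVec u w)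
    (hno : ∀ lam, M0.charpoly.IsRoot lam →
      (M0 + Matrix.vecMulVec u w).charpoly.IsRoot lam → False) :
    Irreducible M.charpoly := by
  have hφ' : ∀ i j, φ (M i j) = C (M0 i j) + X * C (u i * w j) := by
    intro i j
    apply Polynomial.funext
    intro c
    have := congrFun (congrFun (hφ c) i) j
    simp only [Matrix.map_apply, RingHom.comp_apply, coe_evalRingHom, Matrix.add_apply,
      Matrix.smul_apply, Matrix.vecMulVec_apply, smul_eq_mul] at this
    rw [this]
    simp
  let Θ : B[X] →+* l[X][X] :=
    Polynomial.eval₂RingHom ((Polynomial.mapRingHom (C : l →+* l[X])).comp φ) (C X)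
  have hΘ : ∀ (c : l) (G : B[X]),
      (Θ G).eval (C c) = G.map ((Polynomial.evalRingHom c).comp φ) := by
    intro c G
    induction G using Polynomial.induction_on' with
    | add p q hp hq => simp only [map_add, eval_add, hp, hq, Polynomial.map_add]
    | monomial n a =>
      simp only [Θ, coe_eval₂RingHom, eval₂_monomial, RingHom.comp_apply, coe_mapRingHom,
        eval_mul, eval_pow, eval_C, Polynomial.map_monomial, coe_evalRingHom]
      rw [Polynomial.eval_map, Polynomial.eval₂_at_apply, ← C_mul_X_pow_eq_monomial]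
  obtain ⟨q, hq⟩ := det_rank_one M0.charmatrix (fun i => C (u i)) (fun j => C (w j))
  have hdeg : (Θ M.charpoly).natDegree ≤ 1 := by
    have e1 : Θ M.charpoly = C M0.charmatrix.det + X * C q := by
      rw [← hq (C : l[X] →+* l[X][X]) X, Matrix.charpoly, RingHom.map_det]
      congr 1
      ext1 i j
      by_cases hij : i = j
      · subst hij
        simp [Θ, hφ', Matrix.vecMulVec_apply]
        ring
      · simp [Θ, hφ', Matrix.vecMulVec_apply, hij]
        ring
    rw [e1]
    compute_degree
  have hmon : M.charpoly.Monic := M.charpoly_monic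
  have hne : M.charpoly ≠ 1 := by
    intro h
    have := M.charpoly_natDegree_eq_dim
    rw [h, natDegree_one] at this
    exact Fintype.card_ne_zero this.symm
  have key : ∀ G H : B[X], G.Monic → G * H = M.charpoly → (Θ G).natDegree = 0 → G = 1 := by
    intro G H hG hGH h0
    by_contra hG1
    obtain ⟨g, hg⟩ := Polynomial.natDegree_eq_zero.mp h0
    have hgc : ∀ c : l, G.map ((Polynomial.evalRingHom c).comp φ) = g := by
      intro c
      rw [← hΘ, ← hg, eval_C]
    have hgdeg : g.degree ≠ 0 := by
      rw [← hgc 0, hG.degree_map]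
      intro hd
      exact hG1 (hG.degree_le_zero_iff_eq_one.mp hd.le)
    obtain ⟨lam, hlam⟩ := IsAlgClosed.exists_root g hgdeg
    have hroot : ∀ c : l, (M0 + c • Matrix.vecMulVec u w).charpoly.IsRoot lam := by
      intro c
      rw [← hφ c, Matrix.charpoly_map, ← hGH, Polynomial.map_mul, hgc]
      exact hlam.dvd (dvd_mul_right _ _)
    apply hno lam
    · simpa using hroot 0
    · simpa using hroot 1
  rw [Polynomial.irreducible_of_monic hmon hne]
  intro G H hG hH hGH
  have hne0 : ∀ G : B[X], G.Monic → Θ G ≠ 0 := by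
    intro G hG h
    have := hΘ 0 G
    rw [h, eval_zero] at this
    exact (hG.map _).ne_zero this.symm
  have hsum : (Θ G).natDegree + (Θ H).natDegree ≤ 1 := by
    rw [← Polynomial.natDegree_mul (hne0 G hG) (hne0 H hH), ← map_mul, hGH]
    exact hdeg
  by_cases h0 : (Θ G).natDegree = 0
  · exact Or.inl (key G H hG hGH h0)
  · exact Or.inr (key H G hH (by rw [mul_comm, hGH]) (by omega))

end Pool.Agent.MP_36a0ac_al.H88
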