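import Pool.Agent.MP_36a0ac_al.H88.Tower
import Pool.Agent.MP_36a0ac_al.H88.Abstract

set_option autoImplicit false

open TensorProduct

namespace Pool.Agent.MP_36a0ac_al.H88

/-- The restriction of `D` to the `n`-th layer. -/
noncomputable def Dn (n : ℕ) : E n →ₗ[k] E n where
  toFun x := mk n (D (val n x)) (D_mem (val_mem x))
  map_add' x y := val_inj (by simp only [val_mk, map_add])
  map_smul' c x := val_inj (by simp only [val_mk, map_smul, RingHom.id_apply])

theorem val_Dn (n : ℕ) (x : E n) : val n (Dn n x) = D (val n x) := rfl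

theorem Dn_mul (n : ℕ) (a b : E n) : Dn n (a * b) = a * Dn n b + Dn n a * b :=
  val_inj (by simp only [val_Dn, map_mul, map_add, D_mul])

noncomputable def hn (n : ℕ) : E n := mk n (hK n) (hK_mem n)

noncomputable def T0 (n : ℕ) (f : E n) : E n →ₗ[k] E n := Dn n ∘ₗ LinearMap.mulLeft k f

noncomputable def T1 (n : ℕ) (f : E n) : E n →ₗ[k] E n :=
  T0 n f + LinearMap.mulLeft k (hn n * f)

theorem T0_val (n : ℕ) (f w : E n) : val n (T0 n f w) = D (val n f * val n w) := by
  simp only [T0, LinearMap.comp_apply, LinearMap.mulLeft_apply, val_Dn, map_mul]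

theorem T1_val (n : ℕ) (f w : E n) :
    val n (T1 n f w) = D (val n f * val n w) + hK n * val n f * val n w := by
  simp only [T1, LinearMap.add_apply, map_add, T0_val, LinearMap.mulLeft_apply, map_mul, hn, val_mk]

instance (n : ℕ) : FiniteDimensional k (E n) :=
  Module.Finite.of_basis (exists_basis n).choose

/-- An algebraic closure of the big field. -/
def l : Type := AlgebraicClosure K

noncomputable instance : Field l := inferInstanceAs (Field (AlgebraicClosure K))
instance : IsAlgClosed l := inferInstanceAs (IsAlgClosed (AlgebraicClosure K))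
noncomputable instance : Algebra K l := inferInstanceAs (Algebra K (AlgebraicClosure K))
noncomputable instance : Algebra k l := ((algebraMap K l).comp (algebraMap k K)).toAlgebra
instance : IsScalarTower k K l := IsScalarTower.of_algebraMap_eq fun _ => rfl

noncomputable def tau (j : ℕ) : l := algebraMap K l (tK j)

noncomputable def bl : B →+* l := (algebraMap k l).comp (algebraMap B k)

theorem tau_ne (j : ℕ) : tau j ≠ 0 := by
  rw [tau, Ne, map_eq_zero]
  exact tK_ne j

theorem tau_sq (j : ℕ) : tau j * tau j = bl (MvPolynomial.X (W.a j)) := by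
  rw [tau, ← map_mul, tK_sq]; rfl

open Classical in
noncomputable def phiX (n : ℕ) : W → Polynomial l
  | W.a j => Polynomial.C (bl (MvPolynomial.X (W.a j)))
  | W.y m => if m = n then Polynomial.X else Polynomial.C (bl (MvPolynomial.X (W.y m)))
  | W.z m j => if m = n then Polynomial.C (tau j) else Polynomial.C (bl (MvPolynomial.X (W.z m j)))

noncomputable def phi (n : ℕ) : B →+* Polynomial l :=
  MvPolynomial.eval₂Hom (Polynomial.C.comp (bl.comp MvPolynomial.C)) (phiX n)

noncomputable def phic (n : ℕ) (c : l) : B →+* l := (Polynomial.evalRingHom c).comp (phi n)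

theorem phic_X (n : ℕ) (c : l) (w : W) :
    phic n c (MvPolynomial.X w) = (phiX n w).eval c := by
  simp [phic, phi]

abbrev O (n : ℕ) : Type := l ⊗[k] (E n)

noncomputable def cst (n : ℕ) : l →+* O n := algebraMap l (O n)

theorem smul_cst (n : ℕ) (c : l) (v : O n) : c • v = cst n c * v := Algebra.smul_def c v

noncomputable def PhiX (n : ℕ) (c : l) : V → O n
  | V.t j => if h : j < n then 1 ⊗ₜ[k] tn n ⟨j, h⟩ else cst n (tau j)
  | V.y m => cst n (phic n c (MvPolynomial.X (W.y m)))
  | V.z m j => cst n (phic n c (MvPolynomial.X (W.z m j)))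

noncomputable def Phi (n : ℕ) (c : l) : A →+* O n :=
  MvPolynomial.eval₂Hom ((cst n).comp (bl.comp MvPolynomial.C)) (PhiX n c)

theorem Phi_X (n : ℕ) (c : l) (v : V) : Phi n c (MvPolynomial.X v) = PhiX n c v := by
  simp [Phi]

theorem one_tmul_const (n : ℕ) (c : k) :
    (1 : l) ⊗ₜ[k] (algebraMap k (E n) c) = cst n (algebraMap k l c) := by
  rw [cst, Algebra.TensorProduct.algebraMap_apply, Algebra.algebraMap_eq_smul_one c,
    TensorProduct.tmul_smul, TensorProduct.smul_tmul', Algebra.algebraMap_eq_smul_one c]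
  rfl

theorem tn_sq (n : ℕ) (j : Fin n) :
    ((1 : l) ⊗ₜ[k] tn n j) * (1 ⊗ₜ[k] tn n j) = cst n (tau j * tau j) := by
  rw [Algebra.TensorProduct.tmul_mul_tmul, one_mul, tau_sq]
  have : tn n j * tn n j = algebraMap k (E n) (algebraMap B k (MvPolynomial.X (W.a j))) :=
    val_inj (by rw [map_mul, val_tn, AlgHom.commutes, tK_sq])
  rw [this, one_tmul_const]
  rfl

theorem Phi_iota (n : ℕ) (c : l) (b : B) :
    Phi n c (iota b) = cst n (phic n c b) := by
  have : (Phi n c).comp iota = (cst n).comp (phic n c) := by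
    apply MvPolynomial.ringHom_ext'
    · exact RingHom.ext_zmod _ _
    · intro w
      rw [RingHom.comp_apply, RingHom.comp_apply, iota_X]
      cases w with
      | a j =>
        rw [iotaX, map_mul, Phi_X, phic_X, phiX, Polynomial.eval_C, ← tau_sq, PhiX]
        split_ifs with h
        · exact tn_sq n ⟨j, h⟩
        · rw [map_mul]
      | y m => rw [iotaX, Phi_X, PhiX]
      | z m j => rw [iotaX, Phi_X, PhiX]
  exact congrArg (fun f : B →+* O n => f b) this

theorem Phi_S (n : ℕ) (c : l) {g : A} (hg : g ∈ S n) :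
    ∀ x : E n, val n x = algebraMap A K g → Phi n c g = 1 ⊗ₜ[k] x := by
  have key : ∃ x : E n, val n x = algebraMap A K g ∧ Phi n c g = 1 ⊗ₜ[k] x := by
    have hb : ∀ b : B, phic n c b = bl b →
        ∃ x : E n, val n x = algebraMap A K (iota b) ∧ Phi n c (iota b) = 1 ⊗ₜ[k] x := by
      intro b hb
      refine ⟨algebraMap k (E n) (algebraMap B k b), by rw [AlgHom.commutes, algebraMap_kK], ?_⟩
      rw [Phi_iota, hb, one_tmul_const]
      rfl
    induction hg using Algebra.adjoin_induction with
    | mem x hx =>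
      obtain ⟨v, hv, rfl⟩ := hx
      cases v with
      | t j =>
        have hj : j < n := hv
        exact ⟨tn n ⟨j, hj⟩, rfl, by rw [Phi_X, PhiX, dif_pos hj]⟩
      | y m =>
        have hm : m < n := hv
        have := hb (MvPolynomial.X (W.y m))
          (by rw [phic_X, phiX, if_neg (ne_of_lt hm), Polynomial.eval_C])
        rwa [iota_X] at this
      | z m j =>
        have hm : m < n := hv
        have := hb (MvPolynomial.X (W.z m j))
          (by rw [phic_X, phiX, if_neg (ne_of_lt hm), Polynomial.eval_C])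
        rwa [iota_X] at this
    | algebraMap r =>
      have h1 : (phic n c).comp MvPolynomial.C = bl.comp MvPolynomial.C := RingHom.ext_zmod _ _
      have h2 := hb (MvPolynomial.C r) (congrArg (fun f : F →+* l => f r) h1)
      have h3 : iota (MvPolynomial.C r) = algebraMap F A r := by simp [iota]
      rwa [h3] at h2
    | add x y _ _ hx hy =>
      obtain ⟨a, ha, ha'⟩ := hx
      obtain ⟨b, hb, hb'⟩ := hy
      refine ⟨a + b, ?_, ?_⟩
      · rw [map_add, map_add, ha, hb]
      · rw [map_add, ha', hb', TensorProduct.tmul_add]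
    | mul x y _ _ hx hy =>
      obtain ⟨a, ha, ha'⟩ := hx
      obtain ⟨b, hb, hb'⟩ := hy
      refine ⟨a * b, ?_, ?_⟩
      · rw [map_mul, map_mul, ha, hb]
      · rw [map_mul, ha', hb', Algebra.TensorProduct.tmul_mul_tmul, one_mul]
  obtain ⟨x, hx, hx'⟩ := key
  intro x' hx''
  rw [hx', show x' = x from val_inj (hx''.trans hx.symm)]

/-- The socle element. -/
noncomputable def soc (n : ℕ) : O n :=
  ∏ j : Fin n, ((1 : l) ⊗ₜ[k] tn n j + cst n (tau j))

theorem Phi_hA (n : ℕ) (c : l) : Phi n c (hA n) = c • soc n := by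
  rw [hA, map_mul, Phi_X, PhiX, phic_X, phiX, if_pos rfl, Polynomial.eval_X, map_prod,
    Finset.prod_range, smul_cst, soc]
  congr 1
  refine Finset.prod_congr rfl fun j _ => ?_
  rw [map_add, tA, Phi_X, Phi_X, PhiX, PhiX, dif_pos j.2, phic_X, phiX, if_pos rfl,
    Polynomial.eval_C]

noncomputable def emb (n : ℕ) : E n →ₐ[k] l := (IsScalarTower.toAlgHom k K l).comp (val n)

noncomputable def eps (n : ℕ) : O n →ₐ[l] l :=
  Algebra.TensorProduct.lift (AlgHom.id l l) (emb n) (fun _ _ => Commute.all _ _)

theorem eps_tmul (n : ℕ) (a : l) (x : E n) : eps n (a ⊗ₜ[k] x) = a * emb n x := by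
  simp [eps]

theorem two_O (n : ℕ) (v : O n) : v + v = 0 := by
  have h : (1 : O n) + 1 = 0 := by
    have := congrArg ((cst n).comp (algebraMap K l)) (two_K 1)
    simpa only [map_add, map_one, map_zero] using this
  calc v + v = (1 + 1) * v := by ring
    _ = 0 := by rw [h, zero_mul]

theorem soc_tn (n : ℕ) (j : Fin n) : soc n * ((1 : l) ⊗ₜ[k] tn n j) = tau j • soc n := by
  have h1 : ((1 : l) ⊗ₜ[k] tn n j + cst n (tau j)) *
      ((1 : l) ⊗ₜ[k] tn n j + cst n (tau j)) = 0 := by
    rw [add_mul, mul_add, mul_add, tn_sq, ← map_mul, mul_comm (cst n (tau j))]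
    have e1 := two_O n (cst n (tau j * tau j))
    have e2 := two_O n ((1 : l) ⊗ₜ[k] tn n j * cst n (tau j))
    linear_combination e1 + e2
  have h2 : soc n * ((1 : l) ⊗ₜ[k] tn n j + cst n (tau j)) = 0 := by
    rw [soc, ← Finset.prod_erase_mul _ _ (Finset.mem_univ j), mul_assoc, h1, mul_zero]
  have e3 := two_O n (soc n * cst n (tau j))
  rw [smul_cst]
  linear_combination h2 - e3

theorem soc_mul (n : ℕ) (v : O n) : soc n * v = eps n v • soc n := by
  have key : ∀ (x : K) (hx : x ∈ Algebra.adjoin k (tK '' Set.Iio n)),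
      soc n * ((1 : l) ⊗ₜ[k] (mk n x hx)) = emb n (mk n x hx) • soc n := by
    intro x hx
    induction hx using Algebra.adjoin_induction with
    | mem x hx =>
      obtain ⟨j, hj, rfl⟩ := hx
      exact soc_tn n ⟨j, hj⟩
    | algebraMap r =>
      change soc n * ((1 : l) ⊗ₜ[k] (algebraMap k (E n) r)) = emb n (algebraMap k (E n) r) • soc n
      rw [one_tmul_const, AlgHom.commutes, smul_cst, mul_comm]
    | add x y hx' hy' hx hy =>
      change soc n * ((1 : l) ⊗ₜ[k] (mk n x hx' + mk n y hy')) =
        emb n (mk n x hx' + mk n y hy') • soc n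
      rw [TensorProduct.tmul_add, mul_add, hx, hy, map_add, add_smul]
    | mul x y hx' hy' hx hy =>
      change soc n * ((1 : l) ⊗ₜ[k] (mk n x hx' * mk n y hy')) =
        emb n (mk n x hx' * mk n y hy') • soc n
      rw [← one_mul (1 : l), ← Algebra.TensorProduct.tmul_mul_tmul, ← mul_assoc, hx,
        smul_mul_assoc, hy, map_mul, smul_smul]
  induction v using TensorProduct.induction_on with
  | zero => simp
  | tmul a x =>
    have : a ⊗ₜ[k] x = a • ((1 : l) ⊗ₜ[k] x) := by rw [TensorProduct.smul_tmul', smul_eq_mul, mul_one]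
    have hk := key (val n x) (val_mem x)
    rw [show mk n (val n x) (val_mem x) = x from rfl] at hk
    rw [eps_tmul, this, mul_smul_comm, hk, smul_smul]
  | add x y hx hy => rw [mul_add, hx, hy, map_add, add_smul]

theorem one_tmul_prod (n : ℕ) (β : Finset (Fin n)) :
    (1 : l) ⊗ₜ[k] (∏ j ∈ β, tn n j) = ∏ j ∈ β, ((1 : l) ⊗ₜ[k] tn n j : O n) :=
  map_prod (Algebra.TensorProduct.includeRight (R := k) (A := l) (B := E n)) (tn n) β

theorem soc_ne (n : ℕ) : soc n ≠ 0 := by
  obtain ⟨b, hb⟩ := exists_basis n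
  intro h
  have h1 : soc n = ∑ β : Finset (Fin n), (∏ j ∈ βᶜ, tau j) • (b.baseChange l) β := by
    rw [soc, Fintype.prod_add]
    refine Finset.sum_congr rfl fun β _ => ?_
    rw [Module.Basis.baseChange_apply, hb, one_tmul_prod, ← map_prod, smul_cst, mul_comm]
  rw [h1] at h
  have := Fintype.linearIndependent_iff.mp (b.baseChange l).linearIndependent _ h Finset.univ
  simp at this

theorem key (n : ℕ) (hc : ∀ a : E n, Dn n a = 0 → a ∈ Set.range (algebraMap k (E n)))
    (P : A) (hP : P ∈ S n) (f : E n) (hf : val n f = algebraMap A K P) (hf0 : f ≠ 0) :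
    Irreducible (T1 n f).charpoly ∧ ¬ (T1 n f).charpoly.IsRoot 0 := by
  classical
  obtain ⟨b, hb⟩ := exists_basis n
  let mono : Finset (Fin n) → A := fun β => ∏ j ∈ β, tA j
  have hmono_S : ∀ β, mono β ∈ S n := fun β =>
    Subalgebra.prod_mem _ fun j _ => X_mem_S (v := V.t j) j.2
  have hmono_K : ∀ β, val n (b β) = algebraMap A K (mono β) := by
    intro β
    rw [hb, map_prod, map_prod]
    rfl
  have hM : ∀ α, ∃ m : Finset (Fin n) → B,
      ∑ β, m β • mono β = dA (P * mono α) + hA n * P * mono α := by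
    intro α
    apply (Submodule.mem_span_range_iff_exists_fun B).mp
    apply mem_span_mono (R := B) tA (fun j => ⟨_, tA_sq j⟩) n
    exact (AB n).add_mem (S_le_AB (dA_mem_S ((S n).mul_mem hP (hmono_S α))))
      ((AB n).mul_mem ((AB n).mul_mem (hA_mem_AB n) (S_le_AB hP)) (S_le_AB (hmono_S α)))
  choose m hm using hM
  let M : Matrix (Finset (Fin n)) (Finset (Fin n)) B := Matrix.of fun β α => m α β
  have hT1 : LinearMap.toMatrix b b (T1 n f) = M.map (algebraMap B k) := by
    ext β α
    have : T1 n f (b α) = ∑ β, algebraMap B k (m α β) • b β := by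
      apply val_inj
      have e1 : val n (∑ β, algebraMap B k (m α β) • b β) =
          ∑ β, algebraMap B k (m α β) • val n (b β) := by
        simp only [map_sum, map_smul]
      rw [T1_val, e1, hf, hmono_K, ← map_mul, D_poly, hK, ← map_mul, ← map_mul, ← map_add, ← hm,
        map_sum]
      refine Finset.sum_congr rfl fun β _ => ?_
      rw [hmono_K, Algebra.smul_def, Algebra.smul_def, algebraMap_kK, map_mul, algebraMap_BA]
    rw [LinearMap.toMatrix_apply, this, Module.Basis.repr_sum_self]
    rfl
  let c := b.baseChange l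
  let Dl : O n →ₗ[l] O n := (Dn n).baseChange l
  let fl : O n := (1 : l) ⊗ₜ[k] f
  let Tl : l → O n →ₗ[l] O n := fun x =>
    Dl ∘ₗ LinearMap.mulLeft l fl + x • LinearMap.mulLeft l (soc n * fl)
  have hTl : ∀ x v, Tl x v = Dl (fl * v) + x • (soc n * (fl * v)) := by
    intro x v
    simp only [Tl, LinearMap.add_apply, LinearMap.comp_apply, LinearMap.mulLeft_apply,
      LinearMap.smul_apply, mul_assoc]
  have hTM : ∀ x, LinearMap.toMatrix c c (Tl x) = M.map (phic n x) := by
    intro x
    ext β α
    have hc' : ∀ β, Phi n x (mono β) = c β := by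
      intro β
      rw [Phi_S n x (hmono_S β) (b β) (hmono_K β)]
      exact (Module.Basis.baseChange_apply l b β).symm
    have : Tl x (c α) = ∑ β, phic n x (m α β) • c β := by
      have e1 := congrArg (Phi n x) (hm α)
      rw [map_sum, map_add, map_mul (Phi n x), map_mul (Phi n x), Phi_hA, hc', Phi_S n x hP f hf,
        Phi_S n x (dA_mem_S ((S n).mul_mem hP (hmono_S α))) (Dn n (f * b α))
          (by rw [val_Dn, map_mul, hf, hmono_K, ← map_mul, D_poly])] at e1
      have e2 : Dl (fl * c α) = (1 : l) ⊗ₜ[k] Dn n (f * b α) := by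
        rw [Module.Basis.baseChange_apply, Algebra.TensorProduct.tmul_mul_tmul, one_mul,
          LinearMap.baseChange_tmul]
      rw [hTl, e2, ← smul_mul_assoc, ← mul_assoc, ← e1]
      refine Finset.sum_congr rfl fun β _ => ?_
      rw [Algebra.smul_def, map_mul, algebraMap_BA, Phi_iota, hc', smul_cst]
    rw [LinearMap.toMatrix_apply, this, Module.Basis.repr_sum_self]
    rfl
  let M0 := LinearMap.toMatrix c c (Tl 0)
  let u : Finset (Fin n) → l := fun β => c.repr (soc n) β
  let w : Finset (Fin n) → l := fun α => eps n (fl * c α)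
  have hMx : ∀ x, LinearMap.toMatrix c c (Tl x) = M0 + x • Matrix.vecMulVec u w := by
    intro x
    ext β α
    simp only [M0, u, w, LinearMap.toMatrix_apply, hTl, Matrix.add_apply, Matrix.smul_apply,
      Matrix.vecMulVec_apply, soc_mul, zero_smul, add_zero, map_add, map_smul, Finsupp.add_apply,
      Finsupp.smul_apply, smul_eq_mul]
    ring
  have hDl : ∀ a a' : O n, Dl (a * a') = a * Dl a' + Dl a * a' := by
    intro a a'
    induction a using TensorProduct.induction_on with
    | zero => simp
    | add x y hx hy => rw [add_mul, map_add, hx, hy, map_add]; ring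
    | tmul x y =>
      induction a' using TensorProduct.induction_on with
      | zero => simp
      | add x' y' hx hy => rw [mul_add, map_add, hx, hy, map_add]; ring
      | tmul x' y' =>
        simp only [Dl, Algebra.TensorProduct.tmul_mul_tmul, LinearMap.baseChange_tmul, Dn_mul,
          TensorProduct.tmul_add]
  have hfg : fl * ((1 : l) ⊗ₜ[k] f⁻¹) = 1 := by
    rw [Algebra.TensorProduct.tmul_mul_tmul, one_mul, mul_inv_cancel₀ hf0]
    rfl
  have hno : ∀ lam, M0.charpoly.IsRoot lam →
      (M0 + Matrix.vecMulVec u w).charpoly.IsRoot lam → False := by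
    intro lam h0 h1
    have e1 : M0 + Matrix.vecMulVec u w = LinearMap.toMatrix c c (Tl 1) := by rw [hMx, one_smul]
    rw [e1, LinearMap.charpoly_toMatrix, ← Module.End.hasEigenvalue_iff_isRoot_charpoly] at h1
    rw [LinearMap.charpoly_toMatrix, ← Module.End.hasEigenvalue_iff_isRoot_charpoly] at h0
    obtain ⟨v0, hv0⟩ := h0.exists_hasEigenvector
    obtain ⟨v1, hv1⟩ := h1.exists_hasEigenvector
    have a0 := hv0.apply_eq_smul
    have a1 := hv1.apply_eq_smul
    rw [hTl, zero_smul, add_zero] at a0
    rw [hTl, one_smul] at a1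
    exact no_common_eigen Dl hDl (simple_baseChange (Dn n) (Dn_mul n) hc) (eps n) (soc n)
      (soc_ne n) (soc_mul n) fl _ hfg lam v0 hv0.2 a0 v1 hv1.2 a1
  have hφ : ∀ x : l, M.map ((Polynomial.evalRingHom x).comp (phi n)) =
      M0 + x • Matrix.vecMulVec u w := fun x => by rw [← hMx, hTM]; rfl
  have hirr : Irreducible M.charpoly := irreducible_charpoly M (phi n) M0 u w hφ hno
  have hchar : (T1 n f).charpoly = M.charpoly.map (algebraMap B k) := by
    rw [← LinearMap.charpoly_toMatrix _ b, hT1, Matrix.charpoly_map]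
  refine ⟨?_, ?_⟩
  · rw [hchar]
    exact (M.charpoly_monic.irreducible_iff_irreducible_map_fraction_map).mp hirr
  · intro hroot
    rw [hchar, Polynomial.IsRoot, ← Polynomial.coeff_zero_eq_eval_zero, Polynomial.coeff_map,
      map_eq_zero_iff _ (IsFractionRing.injective B k)] at hroot
    have hx : ∀ x : l, (M0 + x • Matrix.vecMulVec u w).charpoly.IsRoot 0 := by
      intro x
      rw [← hφ, Matrix.charpoly_map, Polynomial.IsRoot, ← Polynomial.coeff_zero_eq_eval_zero,
        Polynomial.coeff_map, hroot, map_zero]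
    apply hno 0
    · simpa using hx 0
    · simpa using hx 1

end Pool.Agent.MP_36a0ac_al.H88
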