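import Pool.Agent.MP_36a0ac_al.H88.Key

set_option autoImplicit false

open Polynomial

namespace Pool.Agent.MP_36a0ac_al.H88

/-- An endomorphism with irreducible characteristic polynomial has no invariant subspace. -/
theorem eq_top_of_irreducible {R M : Type} [Field R] [AddCommGroup M] [Module R M]
    [FiniteDimensional R M] (T : M →ₗ[R] M) (hT : Irreducible T.charpoly)
    (U : Submodule R M) (hU : ∀ x ∈ U, T x ∈ U) (x : M) (hx : x ∈ U) (hx0 : x ≠ 0) : U = ⊤ := by
  by_contra hne
  have hlt : Module.finrank R U < Module.finrank R M := Submodule.finrank_lt hne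
  let T' : U →ₗ[R] U := T.restrict hU
  have hnd : ¬ T.charpoly ∣ T'.charpoly := by
    intro h
    have := Polynomial.natDegree_le_of_dvd h T'.charpoly_monic.ne_zero
    rw [LinearMap.charpoly_natDegree, LinearMap.charpoly_natDegree] at this
    omega
  obtain ⟨a, b, hab⟩ := (hT.coprime_iff_not_dvd).mpr hnd
  have hres : ∀ (q : R[X]) (u : U), ((aeval T' q u : U) : M) = aeval T q (u : M) := by
    intro q
    induction q using Polynomial.induction_on with
    | C c => intro u; simp
    | add p q hp hq => intro u; simp only [map_add, LinearMap.add_apply, Submodule.coe_add, hp, hq]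
    | monomial n c ih =>
      intro u
      rw [pow_succ, ← mul_assoc, map_mul, map_mul (aeval T), aeval_X, aeval_X, Module.End.mul_apply,
        Module.End.mul_apply, ih]
      rfl
  have h1 : aeval T T'.charpoly x = 0 := by
    rw [← hres T'.charpoly ⟨x, hx⟩, LinearMap.aeval_self_charpoly]
    rfl
  have h2 := congrArg (fun q => aeval T q x) hab
  simp only [map_add, map_mul, LinearMap.aeval_self_charpoly, mul_zero, zero_add, map_one,
    Module.End.mul_apply, h1, map_zero, Module.End.one_apply] at h2
  exact hx0 h2.symm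

theorem const (n : ℕ) : ∀ a : E n, Dn n a = 0 → a ∈ Set.range (algebraMap k (E n)) := by
  induction n with
  | zero =>
    intro a _
    have h : val 0 a ∈ Algebra.adjoin k (tK '' Set.Iio 0) := val_mem a
    have h0 : tK '' Set.Iio 0 = ∅ := by simp
    rw [h0, Algebra.adjoin_empty, Algebra.mem_bot] at h
    obtain ⟨c, hc⟩ := h
    exact ⟨c, val_inj (by rw [AlgHom.commutes, hc])⟩
  | succ n ih =>
    intro x hx
    obtain ⟨a, ha, b, hb, hab⟩ := Kn_succ (val_mem x)
    have hD : D (val (n + 1) x) = 0 := by rw [← val_Dn, hx, map_zero]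
    rw [hab, map_add, D_mul, D_tK] at hD
    have h1 : D b + hK n * b = 0 := by
      apply indep_succ (D_mem ha) ((Kn n).add_mem (D_mem hb) ((Kn n).mul_mem (hK_mem n) hb))
      rw [← hD]; ring
    have hb0 : b = 0 := by
      by_contra hb0
      have hk := (key n ih 1 (S n).one_mem 1 (by rw [map_one, map_one]) one_ne_zero).2
      apply hk
      rw [← Module.End.hasEigenvalue_iff_isRoot_charpoly]
      apply Module.End.hasEigenvalue_of_hasEigenvector (x := mk n b hb)
      refine ⟨?_, fun h => hb0 (by rw [← val_mk n b hb, h, map_zero])⟩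
      rw [Module.End.mem_eigenspace_iff, zero_smul]
      apply val_inj
      rw [T1_val, map_one, one_mul, mul_one, val_mk, h1, map_zero]
    rw [hb0, zero_mul, map_zero, zero_mul, add_zero, add_zero] at hD
    obtain ⟨c, hc⟩ := ih (mk n a ha) (val_inj (by rw [val_Dn, val_mk, hD, map_zero]))
    refine ⟨c, val_inj ?_⟩
    rw [hab, hb0, zero_mul, add_zero, AlgHom.commutes, ← val_mk n a ha, ← hc, AlgHom.commutes]

theorem main_sub (U : Submodule k K) (hU : ∀ x ∈ U, ∀ y ∈ U, D (x * y) ∈ U)
    (hinf : ∀ n, ∃ v ∈ U, v ∉ Kn n) (x : K) : D x ∈ U := by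
  classical
  obtain ⟨f0, hf0U, hf0⟩ := hinf 0
  have hf00 : f0 ≠ 0 := fun h => hf0 (h ▸ (Kn 0).zero_mem)
  obtain ⟨c, P, hc, hP⟩ := exists_poly f0
  have hPU : algebraMap A K P ∈ U := hP ▸ U.smul_mem c hf0U
  have hP0 : algebraMap A K P ≠ 0 := hP ▸ smul_ne_zero hc hf00
  obtain ⟨n0, hn0⟩ := exists_S P
  obtain ⟨m, hm⟩ := exists_Kn x
  obtain ⟨v, hvU, hv⟩ := hinf (max n0 m)
  have hex := exists_Kn v
  have hpos : max n0 m < Nat.find hex := by
    by_contra h
    exact hv (Kn_mono (not_lt.mp h) (Nat.find_spec hex))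
  obtain ⟨n, hn⟩ : ∃ n, Nat.find hex = n + 1 := ⟨Nat.find hex - 1, by omega⟩
  have hv1 : v ∈ Kn (n + 1) := hn ▸ Nat.find_spec hex
  have hv2 : v ∉ Kn n := Nat.find_min hex (by omega)
  have hPS : P ∈ S n := S_mono (by omega) hn0
  have hxn : x ∈ Kn n := Kn_mono (by omega) hm
  obtain ⟨a, ha, b, hb, hab⟩ := Kn_succ hv1
  have hb0 : b ≠ 0 := by
    rintro rfl
    rw [zero_mul, add_zero] at hab
    exact hv2 (hab ▸ ha)
  let f : E n := mk n (algebraMap A K P) (AB_mem_Kn (S_le_AB hPS))
  have hf : val n f = algebraMap A K P := rfl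
  have hfne : f ≠ 0 := fun h => hP0 (by rw [← hf, h, map_zero])
  obtain ⟨hirr, hroot⟩ := key n (const n) P hPS f hf hfne
  have hstep : ∀ a b : E n, val n a + val n b * tK n ∈ U →
      val n (T0 n f a) + val n (T1 n f b) * tK n ∈ U := by
    intro a b hab
    have := hU _ hPU _ hab
    rw [← hf] at this
    convert this using 1
    rw [T0_val, T1_val, mul_add, map_add, ← mul_assoc, D_mul (val n f * val n b), D_tK]
    ring
  have hpoly : ∀ (q : k[X]) (a b : E n), val n a + val n b * tK n ∈ U →
      val n (aeval (T0 n f) q a) + val n (aeval (T1 n f) q b) * tK n ∈ U := by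
    intro q
    induction q using Polynomial.induction_on with
    | C c =>
      intro a b hab
      have := U.smul_mem c hab
      simpa [smul_add, Module.algebraMap_end_apply] using this
    | add p q hp hq =>
      intro a b hab
      have := U.add_mem (hp a b hab) (hq a b hab)
      convert this using 1
      simp only [map_add, LinearMap.add_apply]
      ring
    | monomial j c ih =>
      intro a b hab
      rw [pow_succ, ← mul_assoc, map_mul, map_mul (aeval (T1 n f)), aeval_X, aeval_X,
        Module.End.mul_apply, Module.End.mul_apply]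
      exact ih _ _ (hstep a b hab)
  have hnd : ¬ (T1 n f).charpoly ∣ (T0 n f).charpoly := by
    intro h
    have heq : (T0 n f).charpoly = (T1 n f).charpoly :=
      Polynomial.eq_of_monic_of_dvd_of_natDegree_le (T1 n f).charpoly_monic (T0 n f).charpoly_monic
        h (by rw [LinearMap.charpoly_natDegree, LinearMap.charpoly_natDegree])
    apply hroot
    rw [← heq, ← Module.End.hasEigenvalue_iff_isRoot_charpoly]
    apply Module.End.hasEigenvalue_of_hasEigenvector (x := f⁻¹)
    refine ⟨?_, inv_ne_zero hfne⟩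
    rw [Module.End.mem_eigenspace_iff, zero_smul]
    apply val_inj
    rw [T0_val, ← map_mul, mul_inv_cancel₀ hfne, map_one, leib_one D_mul, map_zero]
  obtain ⟨p, q, hpq⟩ := (hirr.coprime_iff_not_dvd).mpr hnd
  have hbt : b * tK n ∈ U := by
    have h1 := hpoly (q * (T0 n f).charpoly) (mk n a ha) (mk n b hb)
      (by rw [val_mk, val_mk, ← hab]; exact hvU)
    have h2 : aeval (T0 n f) (q * (T0 n f).charpoly) (mk n a ha) = 0 := by
      rw [map_mul, LinearMap.aeval_self_charpoly, mul_zero, LinearMap.zero_apply]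
    have h3 : aeval (T1 n f) (q * (T0 n f).charpoly) (mk n b hb) = mk n b hb := by
      have := congrArg (fun r => aeval (T1 n f) r (mk n b hb)) hpq
      simpa only [map_add, map_mul (aeval (T1 n f)) p, LinearMap.aeval_self_charpoly, mul_zero,
        zero_add, map_one, Module.End.one_apply] using this
    rwa [h2, h3, map_zero, zero_add, val_mk] at h1
  let Wt : Submodule k (E n) :=
    U.comap ((LinearMap.mulRight k (tK n)) ∘ₗ (val n).toLinearMap)
  have hWt : ∀ w : E n, w ∈ Wt ↔ val n w * tK n ∈ U := fun w => Iff.rfl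
  have htop : Wt = ⊤ := by
    apply eq_top_of_irreducible (T1 n f) hirr Wt _ (mk n b hb) ((hWt _).mpr hbt)
    · intro h
      exact hb0 (by rw [← val_mk n b hb, h, map_zero])
    · intro w hw
      have := hstep 0 w (by rw [map_zero, zero_add]; exact (hWt w).mp hw)
      rw [map_zero, map_zero, zero_add] at this
      exact (hWt _).mpr this
  have hall : ∀ w : E n, val n w * tK n ∈ U := fun w => (hWt w).mp (htop ▸ Submodule.mem_top)
  have h1 := hU _ (hall (mk n x hxn)) _ (hall 1)
  rw [val_mk, map_one, one_mul, mul_assoc, tK_sq, mul_comm, ← Algebra.smul_def, map_smul] at h1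
  have ha0 : algebraMap B k (MvPolynomial.X (W.a n)) ≠ 0 := by
    intro h
    have := tK_sq n
    rw [h, map_zero] at this
    exact tK_ne n (mul_self_eq_zero.mp this)
  exact (U.smul_mem_iff ha0).mp h1

/-- The Lie algebra: the image of `D` with bracket `D (x y)`. -/
def L : Type := LinearMap.range D

noncomputable instance : AddCommGroup L := inferInstanceAs (AddCommGroup (LinearMap.range D))
noncomputable instance : Module k L := inferInstanceAs (Module k (LinearMap.range D))

noncomputable def incl : L →ₗ[k] K := (LinearMap.range D).subtype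

theorem incl_inj : Function.Injective incl := Subtype.val_injective

noncomputable def mkL (x : K) : L := (⟨D x, ⟨x, rfl⟩⟩ : LinearMap.range D)

theorem incl_mkL (x : K) : incl (mkL x) = D x := rfl

theorem exists_mkL (x : L) : ∃ y, incl x = D y := by
  obtain ⟨y, hy⟩ := Subtype.property x
  exact ⟨y, hy.symm⟩

noncomputable instance : LieRing L where
  bracket x y := mkL (incl x * incl y)
  add_lie x y z := incl_inj (by simp only [incl_mkL, map_add, add_mul])
  lie_add x y z := incl_inj (by simp only [incl_mkL, map_add, mul_add])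
  lie_self x := incl_inj (by
    rw [incl_mkL, map_zero, D_mul, mul_comm]
    exact two_K _)
  leibniz_lie x y z := incl_inj (by
    simp only [incl_mkL, map_add]
    rw [← map_add]
    congr 1
    rw [D_mul, D_mul, D_mul]
    linear_combination (-1 : K) * two_K (D (incl x) * incl y * incl z))

theorem incl_lie (x y : L) : incl ⁅x, y⁆ = D (incl x * incl y) := rfl

noncomputable instance : LieAlgebra k L where
  lie_smul c x y := incl_inj (by simp only [incl_lie, map_smul, mul_smul_comm])

theorem not_fg : ¬ ∃ s : Set L, s.Finite ∧ LieSubalgebra.lieSpan k L s = ⊤ := by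
  rintro ⟨s, hs, hspan⟩
  obtain ⟨n, hn⟩ : ∃ n, ∀ x ∈ s, incl x ∈ Kn n := by
    choose N hN using fun x : L => exists_Kn (incl x)
    obtain ⟨n, hn⟩ := (hs.image N).bddAbove
    exact ⟨n, fun x hx => Kn_mono (hn ⟨x, hx, rfl⟩) (hN x)⟩
  let H : LieSubalgebra k L :=
    { toSubmodule := (Subalgebra.toSubmodule (Kn n).toSubalgebra).comap incl
      lie_mem' := fun {x y} hx hy => D_mem (n := n) ((Kn n).mul_mem hx hy) }
  have hle : LieSubalgebra.lieSpan k L s ≤ H := LieSubalgebra.lieSpan_le.mpr hn
  rw [hspan] at hle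
  have h1 : incl (mkL (tK n)) ∈ Kn n := hle (LieSubalgebra.mem_top _)
  rw [incl_mkL, D_tK] at h1
  exact hK_ne n (indep_succ ((Kn n).neg_mem h1) (hK_mem n) (by ring))

theorem proper_fd (H : LieSubalgebra k L) (hH : H ≠ ⊤) : FiniteDimensional k H := by
  by_contra hfd
  apply hH
  let U : Submodule k K := H.toSubmodule.map incl
  have hU : ∀ x ∈ U, ∀ y ∈ U, D (x * y) ∈ U := by
    rintro _ ⟨x, hx, rfl⟩ _ ⟨y, hy, rfl⟩
    exact ⟨⁅x, y⁆, H.lie_mem hx hy, rfl⟩
  have hinf : ∀ n, ∃ v ∈ U, v ∉ Kn n := by
    intro n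
    by_contra h
    push Not at h
    apply hfd
    let g : H →ₗ[k] E n :=
      { toFun := fun x => mk n (incl x.1) (h _ ⟨x.1, x.2, rfl⟩)
        map_add' := fun x y => val_inj (by
          rw [map_add, val_mk, val_mk, val_mk, ← map_add]; rfl)
        map_smul' := fun c x => val_inj (by
          rw [RingHom.id_apply, map_smul, val_mk, val_mk, ← map_smul]; rfl) }
    refine FiniteDimensional.of_injective g fun x y hxy => ?_
    have : incl x.1 = incl y.1 := congrArg (val n) hxy
    exact Subtype.ext (incl_inj this)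
  rw [eq_top_iff]
  intro x _
  obtain ⟨y, hy⟩ := exists_mkL x
  obtain ⟨z, hz, hzx⟩ := main_sub U hU hinf y
  have : z = x := incl_inj (hzx.trans hy.symm)
  exact this ▸ hz

end Pool.Agent.MP_36a0ac_al.H88
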