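import Mathlib

set_option autoImplicit false

open MvPolynomial

namespace Pool.Agent.MP_36a0ac_al.H88

/-- Elements of the algebra generated by square roots of scalars are spanned by
squarefree monomials. -/
theorem mem_span_mono {R S : Type} [CommRing R] [CommRing S] [Algebra R S] (t : ℕ → S)
    (ht : ∀ j, ∃ a : R, t j * t j = algebraMap R S a) (n : ℕ) (x : S)
    (hx : x ∈ Algebra.adjoin R (t '' Set.Iio n)) :
    x ∈ Submodule.span R (Set.range fun β : Finset (Fin n) => ∏ j ∈ β, t j) := by
  set N := Submodule.span R (Set.range fun β : Finset (Fin n) => ∏ j ∈ β, t j) with hN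
  have key : ∀ v ∈ N, x * v ∈ N := by
    induction hx using Algebra.adjoin_induction with
    | mem x hx =>
      obtain ⟨j, hj, rfl⟩ := hx
      intro v hv
      induction hv using Submodule.span_induction with
      | mem v hv =>
        obtain ⟨β, rfl⟩ := hv
        by_cases hjβ : (⟨j, hj⟩ : Fin n) ∈ β
        · obtain ⟨a, ha⟩ := ht j
          have : t j * ∏ i ∈ β, t i = a • ∏ i ∈ β.erase ⟨j, hj⟩, t i := by
            rw [← Finset.mul_prod_erase β _ hjβ, ← mul_assoc, ha, Algebra.smul_def]
          simp only
          rw [this]
          exact Submodule.smul_mem _ _ (Submodule.subset_span ⟨_, rfl⟩)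
        · have : t j * ∏ i ∈ β, t i = ∏ i ∈ insert (⟨j, hj⟩ : Fin n) β, t i := by
            rw [Finset.prod_insert hjβ]
          simp only
          rw [this]
          exact Submodule.subset_span ⟨_, rfl⟩
      | zero => simp
      | add v w _ _ hv hw => rw [mul_add]; exact N.add_mem hv hw
      | smul a v _ hv => rw [mul_smul_comm]; exact N.smul_mem _ hv
    | algebraMap r => intro v hv; rw [← Algebra.smul_def]; exact N.smul_mem _ hv
    | add x y _ _ hx hy => intro v hv; rw [add_mul]; exact N.add_mem (hx v hv) (hy v hv)
    | mul x y _ _ hx hy => intro v hv; rw [mul_assoc]; exact hx _ (hy v hv)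
  have h1 : (1 : S) ∈ N := Submodule.subset_span ⟨∅, by simp⟩
  simpa using key 1 h1

/-- Variables of the big polynomial ring. -/
inductive V : Type
  | t (n : ℕ) : V
  | y (n : ℕ) : V
  | z (n j : ℕ) : V

/-- Variables of the small polynomial ring. -/
inductive W : Type
  | a (n : ℕ) : W
  | y (n : ℕ) : W
  | z (n j : ℕ) : W

abbrev F : Type := ZMod 2
abbrev A : Type := MvPolynomial V F
abbrev B : Type := MvPolynomial W F

noncomputable def iotaX : W → A
  | W.a n => X (V.t n) * X (V.t n)
  | W.y n => X (V.y n)
  | W.z n j => X (V.z n j)

noncomputable def psiX : V → B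
  | V.t n => X (W.a n)
  | V.y n => X (W.y n) * X (W.y n)
  | V.z n j => X (W.z n j) * X (W.z n j)

noncomputable def iota : B →+* A := eval₂Hom C iotaX
noncomputable def psi : A →+* B := eval₂Hom C psiX

theorem iota_X (w : W) : iota (X w) = iotaX w := by simp [iota]
theorem psi_X (v : V) : psi (X v) = psiX v := by simp [psi]

theorem psi_iota (b : B) : psi (iota b) = b * b := by
  have : psi.comp iota = frobenius B 2 := by
    apply MvPolynomial.ringHom_ext'
    · exact RingHom.ext_zmod _ _
    · intro w
      rw [RingHom.comp_apply, iota_X, frobenius_def]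
      cases w <;> simp [iotaX, psi_X, psiX, pow_two]
  have h := congrArg (fun f : B →+* B => f b) this
  simpa [frobenius_def, pow_two] using h

theorem iota_psi (g : A) : iota (psi g) = g * g := by
  have : iota.comp psi = frobenius A 2 := by
    apply MvPolynomial.ringHom_ext'
    · exact RingHom.ext_zmod _ _
    · intro v
      rw [RingHom.comp_apply, psi_X, frobenius_def]
      cases v <;> simp [psiX, iota_X, iotaX, pow_two]
  have h := congrArg (fun f : A →+* A => f g) this
  simpa [frobenius_def, pow_two] using h

theorem iota_injective : Function.Injective iota := by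
  rw [injective_iff_map_eq_zero]
  intro b hb
  have := psi_iota b
  rw [hb, map_zero] at this
  exact mul_self_eq_zero.mp this.symm

noncomputable instance algBA : Algebra B A := iota.toAlgebra

theorem algebraMap_BA (b : B) : algebraMap B A b = iota b := rfl

/-- The ground field. -/
def k : Type := FractionRing B
/-- The big field. -/
def K : Type := FractionRing A

noncomputable instance : Field k := inferInstanceAs (Field (FractionRing B))
noncomputable instance : Algebra B k := inferInstanceAs (Algebra B (FractionRing B))
instance : IsFractionRing B k := inferInstanceAs (IsFractionRing B (FractionRing B))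
noncomputable instance : Field K := inferInstanceAs (Field (FractionRing A))
noncomputable instance : Algebra A K := inferInstanceAs (Algebra A (FractionRing A))
instance : IsFractionRing A K := inferInstanceAs (IsFractionRing A (FractionRing A))

theorem toK_injective : Function.Injective (algebraMap A K) := IsFractionRing.injective A K

theorem iotaK_injective : Function.Injective ((algebraMap A K).comp iota) :=
  toK_injective.comp iota_injective

noncomputable instance algkK : Algebra k K :=
  (IsFractionRing.lift (K := k) iotaK_injective).toAlgebra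

theorem algebraMap_kK (b : B) :
    algebraMap k K (algebraMap B k b) = algebraMap A K (iota b) :=
  IsFractionRing.lift_algebraMap iotaK_injective b

theorem two_A (g : A) : g + g = 0 := CharTwo.add_self_eq_zero g

theorem two_K (x : K) : x + x = 0 := by
  have h : (1 : K) + 1 = 0 := by
    have := congrArg (algebraMap A K) (two_A 1)
    simpa using this
  calc x + x = (1 + 1) * x := by ring
    _ = 0 := by rw [h, zero_mul]

theorem sq_mem (x : K) : ∃ c : k, x * x = algebraMap k K c := by
  obtain ⟨P, Q, hQ, rfl⟩ := IsFractionRing.div_surjective (A := A) x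
  refine ⟨algebraMap B k (psi P) / algebraMap B k (psi Q), ?_⟩
  rw [map_div₀, algebraMap_kK, algebraMap_kK, iota_psi, iota_psi, map_mul, map_mul,
    div_mul_div_comm]

/-- Every element of `K` is a polynomial up to a nonzero scalar. -/
theorem exists_poly (x : K) : ∃ (c : k) (P : A), c ≠ 0 ∧ c • x = algebraMap A K P := by
  obtain ⟨P, Q, hQ, rfl⟩ := IsFractionRing.div_surjective (A := A) x
  have hQ0 : Q ≠ 0 := nonZeroDivisors.ne_zero hQ
  have hQK : algebraMap A K Q ≠ 0 := fun h => hQ0 (toK_injective (by rw [h, map_zero]))
  refine ⟨algebraMap B k (psi Q), P * Q, ?_, ?_⟩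
  · intro h
    have := congrArg (algebraMap k K) h
    rw [algebraMap_kK, iota_psi, map_zero, map_mul] at this
    exact hQK (mul_self_eq_zero.mp this)
  · rw [Algebra.smul_def, algebraMap_kK, iota_psi, map_mul, map_mul]
    field_simp

/-- Extension of a derivation of `A` killing `B` to a `k`-linear derivation of `K`. -/
theorem exists_ext (d : Derivation F A A) (hd : ∀ w, d (iotaX w) = 0) :
    ∃ D : K →ₗ[k] K, (∀ a b, D (a * b) = a * D b + D a * b) ∧
      ∀ g, D (algebraMap A K g) = algebraMap A K (d g) := by
  have hdb : ∀ b : B, d (iota b) = 0 := by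
    intro b
    induction b using MvPolynomial.induction_on with
    | C a => simp [iota]
    | add p q hp hq => rw [map_add, map_add, hp, hq, add_zero]
    | mul_X p w hp => rw [map_mul, Derivation.leibniz, hp, iota_X, hd]; simp
  let ρ : A →+* TrivSqZeroExt K K :=
    { toFun := fun g => (algebraMap A K g, algebraMap A K (d g))
      map_one' := by
        apply TrivSqZeroExt.ext
        · exact map_one _
        · change algebraMap A K (d 1) = 0
          rw [Derivation.map_one_eq_zero, map_zero]
      map_mul' := by
        intro a b
        apply TrivSqZeroExt.ext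
        · exact map_mul _ _ _
        · refine Eq.trans ?_ (TrivSqZeroExt.snd_mul _ _).symm
          change algebraMap A K (d (a * b)) = algebraMap A K a * algebraMap A K (d b) +
            algebraMap A K (d a) * algebraMap A K b
          rw [Derivation.leibniz, smul_eq_mul, smul_eq_mul, map_add, map_mul, map_mul]
          ring
      map_zero' := by
        apply TrivSqZeroExt.ext
        · exact map_zero _
        · change algebraMap A K (d 0) = 0
          rw [map_zero, map_zero]
      map_add' := by
        intro a b
        apply TrivSqZeroExt.ext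
        · exact map_add _ _ _
        · change algebraMap A K (d (a + b)) = algebraMap A K (d a) + algebraMap A K (d b)
          rw [map_add, map_add] }
  have hρ1 : ∀ g, (ρ g).fst = algebraMap A K g := fun g => rfl
  have hρ2 : ∀ g, (ρ g).snd = algebraMap A K (d g) := fun g => rfl
  have hu : ∀ g : nonZeroDivisors A, IsUnit (ρ g) := by
    intro g
    rw [TrivSqZeroExt.isUnit_iff_isUnit_fst, hρ1]
    exact IsLocalization.map_units K g
  let σ : K →+* TrivSqZeroExt K K := IsLocalization.lift (M := nonZeroDivisors A) hu
  have hσ : ∀ g, σ (algebraMap A K g) = ρ g := fun g => IsLocalization.lift_eq hu g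
  have hσ1 : ∀ x, (σ x).fst = x := by
    have : (TrivSqZeroExt.fstHom K K K).toRingHom.comp σ = RingHom.id K := by
      apply IsLocalization.ringHom_ext (nonZeroDivisors A)
      refine RingHom.ext fun g => ?_
      change (σ (algebraMap A K g)).fst = algebraMap A K g
      rw [hσ, hρ1]
    intro x
    exact congrArg (fun f : K →+* K => f x) this
  have hleib : ∀ a b, (σ (a * b)).snd = a * (σ b).snd + (σ a).snd * b := by
    intro a b
    rw [map_mul, TrivSqZeroExt.snd_mul, hσ1, hσ1]
    simp
  have hk : ∀ c : k, (σ (algebraMap k K c)).snd = 0 := by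
    intro c
    obtain ⟨P, Q, hQ, rfl⟩ := IsFractionRing.div_surjective (A := B) c
    have hQ0 : Q ≠ 0 := nonZeroDivisors.ne_zero hQ
    have hQK : algebraMap A K (iota Q) ≠ 0 := fun h => hQ0 (iotaK_injective (by simpa using h))
    have h1 : algebraMap k K (algebraMap B k P / algebraMap B k Q) * algebraMap A K (iota Q) =
        algebraMap A K (iota P) := by
      rw [map_div₀, algebraMap_kK, algebraMap_kK, div_mul_cancel₀ _ hQK]
    have h2 := hleib (algebraMap k K (algebraMap B k P / algebraMap B k Q)) (algebraMap A K (iota Q))
    rw [h1, hσ, hσ, hρ2, hρ2, hdb, hdb, map_zero, mul_zero, zero_add] at h2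
    exact (mul_eq_zero.mp h2.symm).resolve_right hQK
  refine ⟨{ toFun := fun x => (σ x).snd
            map_add' := fun a b => by rw [map_add, TrivSqZeroExt.snd_add]
            map_smul' := fun c x => ?_ }, hleib, fun g => ?_⟩
  · rw [Algebra.smul_def, hleib, hk, zero_mul, add_zero, RingHom.id_apply, Algebra.smul_def]
  · change (σ _).snd = _
    rw [hσ, hρ2]

end Pool.Agent.MP_36a0ac_al.H88
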