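import Pool.Agent.MP_36a0ac_al.H88.Setup

set_option autoImplicit false

open MvPolynomial

namespace Pool.Agent.MP_36a0ac_al.H88

noncomputable def tA (n : ℕ) : A := X (V.t n)
noncomputable def tK (n : ℕ) : K := algebraMap A K (tA n)

noncomputable def hA (n : ℕ) : A := X (V.y n) * ∏ j ∈ Finset.range n, (tA j + X (V.z n j))

noncomputable def dX : V → A
  | V.t n => hA n * tA n
  | V.y _ => 0
  | V.z _ _ => 0

noncomputable def dA : Derivation F A A := mkDerivation F dX

theorem dA_X (v : V) : dA (X v) = dX v := mkDerivation_X F dX v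

theorem deriv_iotaX (e : V → A) (h1 : ∀ n, e (V.y n) = 0) (h2 : ∀ n j, e (V.z n j) = 0) (w : W) :
    mkDerivation F e (iotaX w) = 0 := by
  cases w with
  | a n =>
    simp only [iotaX]
    rw [Derivation.leibniz]
    exact two_A _
  | y n => simp only [iotaX]; rw [mkDerivation_X, h1]
  | z n j => simp only [iotaX]; rw [mkDerivation_X, h2]

theorem exists_D : ∃ D : K →ₗ[k] K, (∀ a b, D (a * b) = a * D b + D a * b) ∧
      ∀ g, D (algebraMap A K g) = algebraMap A K (dA g) :=
  exists_ext dA (deriv_iotaX dX (fun _ => rfl) (fun _ _ => rfl))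

/-- The derivation of `K`. -/
noncomputable def D : K →ₗ[k] K := exists_D.choose

theorem D_mul (a b : K) : D (a * b) = a * D b + D a * b := exists_D.choose_spec.1 a b
theorem D_poly (g : A) : D (algebraMap A K g) = algebraMap A K (dA g) := exists_D.choose_spec.2 g

theorem leib_one {E : K →ₗ[k] K} (hE : ∀ a b, E (a * b) = a * E b + E a * b) : E 1 = 0 := by
  have := hE 1 1
  simp only [mul_one, one_mul] at this
  exact left_eq_add.mp this

theorem leib_const {E : K →ₗ[k] K} (hE : ∀ a b, E (a * b) = a * E b + E a * b) (c : k) :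
    E (algebraMap k K c) = 0 := by
  rw [Algebra.algebraMap_eq_smul_one, map_smul, leib_one hE, smul_zero]

theorem tA_sq (j : ℕ) : tA j * tA j = algebraMap B A (X (W.a j)) := by
  rw [algebraMap_BA, iota_X]; rfl

theorem tK_sq (j : ℕ) : tK j * tK j = algebraMap k K (algebraMap B k (X (W.a j))) := by
  rw [algebraMap_kK, ← algebraMap_BA, ← tA_sq, map_mul]; rfl

theorem tK_ne (j : ℕ) : tK j ≠ 0 := by
  intro h
  have : tA j = 0 := toK_injective (by rw [map_zero]; exact h)
  exact X_ne_zero _ this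

theorem hA_ne (n : ℕ) : hA n ≠ 0 := by
  intro h
  let e : V → F := fun v => match v with
    | V.t _ => 1
    | V.y _ => 1
    | V.z _ _ => 0
  have := congrArg (eval e) h
  simp [hA, tA, e] at this

/-- The `n`-th layer as a subalgebra. -/
noncomputable def KnA (n : ℕ) : Subalgebra k K := Algebra.adjoin k (tK '' Set.Iio n)

/-- The `n`-th layer as a field. -/
noncomputable def Kn (n : ℕ) : IntermediateField k K :=
  (KnA n).toIntermediateField fun x hx => by
    by_cases hx0 : x = 0
    · rw [hx0, inv_zero]; exact (KnA n).zero_mem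
    obtain ⟨c, hc⟩ := sq_mem x
    have : x⁻¹ = algebraMap k K c⁻¹ * x := by
      rw [map_inv₀, ← hc]; field_simp
    rw [this]
    exact (KnA n).mul_mem ((KnA n).algebraMap_mem _) hx

theorem mem_Kn {n : ℕ} {x : K} : x ∈ Kn n ↔ x ∈ Algebra.adjoin k (tK '' Set.Iio n) := Iff.rfl

theorem Kn_mono {m n : ℕ} (h : m ≤ n) {x : K} (hx : x ∈ Kn m) : x ∈ Kn n :=
  Algebra.adjoin_mono (Set.image_mono (Set.Iio_subset_Iio h)) hx

theorem tK_mem {j n : ℕ} (h : j < n) : tK j ∈ Kn n := Algebra.subset_adjoin ⟨j, h, rfl⟩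

def level : V → ℕ
  | V.t n => n
  | V.y n => n
  | V.z n _ => n

/-- Polynomials in the variables of level below `n`. -/
noncomputable def S (n : ℕ) : Subalgebra F A := Algebra.adjoin F (X '' {v : V | level v < n})

theorem X_mem_S {n : ℕ} {v : V} (h : level v < n) : X v ∈ S n := Algebra.subset_adjoin ⟨v, h, rfl⟩

theorem S_mono {m n : ℕ} (h : m ≤ n) {g : A} (hg : g ∈ S m) : g ∈ S n :=
  Algebra.adjoin_mono (Set.image_mono fun _ hv => lt_of_lt_of_le hv h) hg

theorem exists_S (g : A) : ∃ n, g ∈ S n := by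
  induction g using MvPolynomial.induction_on with
  | C a => exact ⟨0, (S 0).algebraMap_mem a⟩
  | add p q hp hq =>
    obtain ⟨m, hm⟩ := hp
    obtain ⟨n, hn⟩ := hq
    exact ⟨max m n, (S _).add_mem (S_mono (le_max_left _ _) hm) (S_mono (le_max_right _ _) hn)⟩
  | mul_X p v hp =>
    obtain ⟨m, hm⟩ := hp
    exact ⟨max m (level v + 1), (S _).mul_mem (S_mono (le_max_left _ _) hm)
      (X_mem_S (lt_of_lt_of_le (Nat.lt_succ_self _) (le_max_right _ _)))⟩

theorem hA_mem_S {j n : ℕ} (h : j < n) : hA j ∈ S n := by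
  refine (S n).mul_mem (X_mem_S h) (Subalgebra.prod_mem _ fun i hi => ?_)
  exact (S n).add_mem (X_mem_S (lt_trans (Finset.mem_range.mp hi) h)) (X_mem_S h)

theorem dA_mem_S {n : ℕ} {g : A} (hg : g ∈ S n) : dA g ∈ S n := by
  induction hg using Algebra.adjoin_induction with
  | mem x hx =>
    obtain ⟨v, hv, rfl⟩ := hx
    rw [dA_X]
    cases v with
    | t j => exact (S n).mul_mem (hA_mem_S hv) (X_mem_S hv)
    | y j => exact (S n).zero_mem
    | z j i => exact (S n).zero_mem
  | algebraMap r => rw [Derivation.map_algebraMap]; exact (S n).zero_mem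
  | add x y _ _ hx hy => rw [map_add]; exact (S n).add_mem hx hy
  | mul x y hx' hy' hx hy =>
    rw [Derivation.leibniz]
    exact (S n).add_mem ((S n).mul_mem hx' hy) ((S n).mul_mem hy' hx)

/-- The `B`-algebra generated by the first `n` square roots. -/
noncomputable def AB (n : ℕ) : Subalgebra B A := Algebra.adjoin B (tA '' Set.Iio n)

theorem tA_mem_AB {j n : ℕ} (h : j < n) : tA j ∈ AB n := Algebra.subset_adjoin ⟨j, h, rfl⟩

theorem y_mem_AB (j n : ℕ) : X (V.y j) ∈ AB n := by
  have := (AB n).algebraMap_mem (X (W.y j))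
  rwa [algebraMap_BA, iota_X] at this

theorem z_mem_AB (j i n : ℕ) : X (V.z j i) ∈ AB n := by
  have := (AB n).algebraMap_mem (X (W.z j i))
  rwa [algebraMap_BA, iota_X] at this

theorem S_le_AB {n : ℕ} {g : A} (hg : g ∈ S n) : g ∈ AB n := by
  induction hg using Algebra.adjoin_induction with
  | mem x hx =>
    obtain ⟨v, hv, rfl⟩ := hx
    cases v with
    | t j => exact tA_mem_AB hv
    | y j => exact y_mem_AB _ _
    | z j i => exact z_mem_AB _ _ _
  | algebraMap r =>
    have := (AB n).algebraMap_mem (C r)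
    rw [algebraMap_BA] at this
    simpa [iota] using this
  | add x y _ _ hx hy => exact (AB n).add_mem hx hy
  | mul x y _ _ hx hy => exact (AB n).mul_mem hx hy

theorem hA_mem_AB (n : ℕ) : hA n ∈ AB n := by
  refine (AB n).mul_mem (y_mem_AB _ _) (Subalgebra.prod_mem _ fun i hi => ?_)
  exact (AB n).add_mem (tA_mem_AB (Finset.mem_range.mp hi)) (z_mem_AB _ _ _)

theorem AB_mem_Kn {n : ℕ} {g : A} (hg : g ∈ AB n) : algebraMap A K g ∈ Kn n := by
  induction hg using Algebra.adjoin_induction with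
  | mem x hx =>
    obtain ⟨j, hj, rfl⟩ := hx
    exact tK_mem hj
  | algebraMap r =>
    rw [algebraMap_BA, ← algebraMap_kK]
    exact (Kn n).algebraMap_mem _
  | add x y _ _ hx hy => rw [map_add]; exact (Kn n).add_mem hx hy
  | mul x y _ _ hx hy => rw [map_mul]; exact (Kn n).mul_mem hx hy

theorem exists_Kn (x : K) : ∃ n, x ∈ Kn n := by
  obtain ⟨c, P, hc, hP⟩ := exists_poly x
  obtain ⟨n, hn⟩ := exists_S P
  refine ⟨n, ?_⟩
  have : x = c⁻¹ • algebraMap A K P := by rw [← hP, smul_smul, inv_mul_cancel₀ hc, one_smul]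
  rw [this]
  exact (Kn n).smul_mem (AB_mem_Kn (S_le_AB hn))

noncomputable def hK (n : ℕ) : K := algebraMap A K (hA n)

theorem hK_mem (n : ℕ) : hK n ∈ Kn n := AB_mem_Kn (hA_mem_AB n)

theorem hK_ne (n : ℕ) : hK n ≠ 0 := fun h => hA_ne n (toK_injective (by rw [map_zero]; exact h))

theorem D_tK (n : ℕ) : D (tK n) = hK n * tK n := by
  rw [tK, D_poly, tA, dA_X, dX, map_mul]; rfl

theorem D_mem {n : ℕ} {x : K} (hx : x ∈ Kn n) : D x ∈ Kn n := by
  rw [mem_Kn] at hx
  induction hx using Algebra.adjoin_induction with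
  | mem x hx =>
    obtain ⟨j, hj, rfl⟩ := hx
    rw [D_tK]
    exact (Kn n).mul_mem (Kn_mono (le_of_lt hj) (hK_mem j)) (tK_mem hj)
  | algebraMap r => rw [leib_const D_mul]; exact (Kn n).zero_mem
  | add x y _ _ hx hy => rw [map_add]; exact (Kn n).add_mem hx hy
  | mul x y hx' hy' hx hy =>
    rw [D_mul]
    exact (Kn n).add_mem ((Kn n).mul_mem hx' hy) ((Kn n).mul_mem hx hy')

theorem Kn_succ {n : ℕ} {x : K} (hx : x ∈ Kn (n + 1)) :
    ∃ a ∈ Kn n, ∃ b ∈ Kn n, x = a + b * tK n := by
  rw [mem_Kn] at hx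
  induction hx using Algebra.adjoin_induction with
  | mem x hx =>
    obtain ⟨j, hj, rfl⟩ := hx
    rcases Nat.lt_succ_iff_lt_or_eq.mp hj with h | rfl
    · exact ⟨tK j, tK_mem h, 0, (Kn n).zero_mem, by simp⟩
    · exact ⟨0, (Kn j).zero_mem, 1, (Kn j).one_mem, by simp⟩
  | algebraMap r => exact ⟨_, (Kn n).algebraMap_mem r, 0, (Kn n).zero_mem, by simp⟩
  | add x y _ _ hx hy =>
    obtain ⟨a, ha, b, hb, rfl⟩ := hx
    obtain ⟨c, hc, d, hd, rfl⟩ := hy
    exact ⟨a + c, (Kn n).add_mem ha hc, b + d, (Kn n).add_mem hb hd, by ring⟩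
  | mul x y _ _ hx hy =>
    obtain ⟨a, ha, b, hb, rfl⟩ := hx
    obtain ⟨c, hc, d, hd, rfl⟩ := hy
    refine ⟨a * c + b * d * (tK n * tK n), ?_, a * d + b * c, ?_, by ring⟩
    · rw [tK_sq]
      exact (Kn n).add_mem ((Kn n).mul_mem ha hc)
        ((Kn n).mul_mem ((Kn n).mul_mem hb hd) ((Kn n).algebraMap_mem _))
    · exact (Kn n).add_mem ((Kn n).mul_mem ha hd) ((Kn n).mul_mem hb hc)

theorem indep_succ {n : ℕ} {a b : K} (ha : a ∈ Kn n) (hb : b ∈ Kn n) (h : a + b * tK n = 0) :
    b = 0 := by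
  classical
  let e : V → A := fun v => if v = V.t n then 1 else 0
  obtain ⟨E, hE, hEp⟩ := exists_ext (mkDerivation F e)
    (deriv_iotaX e (fun _ => by simp [e]) (fun _ _ => by simp [e]))
  have hEt : ∀ j, E (tK j) = if j = n then 1 else 0 := by
    intro j
    rw [tK, hEp, tA, mkDerivation_X]
    by_cases hj : j = n <;> simp [e, hj]
  have hE0 : ∀ x ∈ Kn n, E x = 0 := by
    intro x hx
    rw [mem_Kn] at hx
    induction hx using Algebra.adjoin_induction with
    | mem x hx =>
      obtain ⟨j, hj, rfl⟩ := hx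
      rw [hEt, if_neg (ne_of_lt hj)]
    | algebraMap r => exact leib_const hE r
    | add x y _ _ hx hy => rw [map_add, hx, hy, add_zero]
    | mul x y _ _ hx hy => rw [hE, hx, hy]; simp
  have := congrArg E h
  rw [map_add, hE, hE0 a ha, hE0 b hb, hEt] at this
  simpa using this

theorem mono_indep (n : ℕ) :
    LinearIndependent k (fun β : Finset (Fin n) => ∏ j ∈ β, tK j) := by
  classical
  let e : V → A := fun v => match v with
    | V.t j => X (V.y j) * tA j
    | V.y _ => 0
    | V.z _ _ => 0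
  obtain ⟨E, hE, hEp⟩ := exists_ext (mkDerivation F e)
    (deriv_iotaX e (fun _ => rfl) (fun _ _ => rfl))
  have hEt : ∀ j, E (tK j) = algebraMap B k (X (W.y j)) • tK j := by
    intro j
    rw [tK, hEp, tA, mkDerivation_X, Algebra.smul_def, algebraMap_kK, iota_X]
    simp only [e, iotaX, map_mul, tA]
  let μ : Finset (Fin n) → k := fun β => algebraMap B k (∑ j ∈ β, X (W.y j))
  have hμ : Function.Injective μ := by
    intro β γ h
    have h1 : (∑ j ∈ β, X (W.y j) : B) = ∑ j ∈ γ, X (W.y j) := IsFractionRing.injective B k h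
    ext i
    let ev : W → F := fun w => if w = W.y i then 1 else 0
    have h2 := congrArg (eval ev) h1
    have h3 : ∀ j : Fin n, ev (W.y j) = if j = i then 1 else 0 := by
      intro j
      simp [ev, Fin.ext_iff]
    simp only [map_sum, eval_X, h3, Finset.sum_ite_eq'] at h2
    by_cases hβ : i ∈ β <;> by_cases hγ : i ∈ γ <;> simp_all
  refine Module.End.eigenvectors_linearIndependent' (E : Module.End k K) μ hμ _ fun β => ⟨?_, ?_⟩
  · rw [Module.End.mem_eigenspace_iff]
    induction β using Finset.induction_on with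
    | empty => simp [μ, leib_one hE]
    | insert j β hj ih =>
      simp only [μ] at ih ⊢
      rw [Finset.prod_insert hj, Finset.sum_insert hj, hE, ih, hEt, map_add, add_smul,
        mul_smul_comm, smul_mul_assoc, add_comm]
  · exact Finset.prod_ne_zero_iff.mpr fun j _ => tK_ne j

/-- The `n`-th layer as a type. -/
def E (n : ℕ) : Type := Kn n

noncomputable instance (n : ℕ) : Field (E n) := inferInstanceAs (Field (Kn n))
noncomputable instance (n : ℕ) : Algebra k (E n) := inferInstanceAs (Algebra k (Kn n))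

noncomputable def val (n : ℕ) : E n →ₐ[k] K := (Kn n).val

theorem val_inj {n : ℕ} {x y : E n} (h : val n x = val n y) : x = y := Subtype.ext h

theorem val_mem {n : ℕ} (x : E n) : val n x ∈ Kn n := Subtype.property x

noncomputable def mk (n : ℕ) (x : K) (hx : x ∈ Kn n) : E n := (⟨x, hx⟩ : Kn n)

theorem val_mk (n : ℕ) (x : K) (hx : x ∈ Kn n) : val n (mk n x hx) = x := rfl

noncomputable def tn (n : ℕ) (j : Fin n) : E n := mk n (tK j) (tK_mem j.2)

theorem val_tn (n : ℕ) (j : Fin n) : val n (tn n j) = tK j := rfl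

/-- The monomial basis of the `n`-th layer. -/
theorem exists_basis (n : ℕ) :
    ∃ b : Module.Basis (Finset (Fin n)) k (E n), ∀ β, b β = ∏ j ∈ β, tn n j := by
  have hcoe : ∀ β : Finset (Fin n), val n (∏ j ∈ β, tn n j) = ∏ j ∈ β, tK j := by
    intro β
    exact map_prod (val n) (tn n) β
  have hli : LinearIndependent k (fun β : Finset (Fin n) => (∏ j ∈ β, tn n j : E n)) := by
    apply LinearIndependent.of_comp (val n).toLinearMap
    have : ((val n).toLinearMap ∘ fun β : Finset (Fin n) => (∏ j ∈ β, tn n j : E n)) =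
        fun β : Finset (Fin n) => ∏ j ∈ β, tK j := funext hcoe
    rw [this]
    exact mono_indep n
  have hsp : ⊤ ≤ Submodule.span k
      (Set.range fun β : Finset (Fin n) => (∏ j ∈ β, tn n j : E n)) := by
    intro x _
    have h1 := mem_span_mono (R := k) tK (fun j => ⟨_, tK_sq j⟩) n (val n x) (val_mem x)
    obtain ⟨c, hc⟩ := (Submodule.mem_span_range_iff_exists_fun k).mp h1
    refine (Submodule.mem_span_range_iff_exists_fun k).mpr ⟨c, val_inj ?_⟩
    rw [← hc, map_sum]
    simp only [map_smul, hcoe]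
  exact ⟨Module.Basis.mk hli hsp, fun β => Module.Basis.mk_apply hli hsp β⟩

end Pool.Agent.MP_36a0ac_al.H88
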